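import Pool.Agent.Q264.Uni12

/-!
# Accumulation points of the level sets at the de Vries-Komornik numbers

`U x` is the set of the bases `q` in `(1, q_x]`, `q_x = min(2, 1 + 1/x)`, in which `x` has exactly one
expansion with digits `0`, `1`; `qs x` is its infimum and `L q = {x > 0 : qs x = q}`. A de
Vries-Komornik number is the right end point `q` of a gap `(q0, q)` of the closure of `U 1`, with
`q0` in the closure of `U 1` but not in `U 1`, and `q` in `U 1`. For every de Vries-Komornik number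
`q < Q3` (`Q3` the tribonacci number) the set of the accumulation points of `L q` is infinite, even
uncountable, and `L q` is uncountable. The same holds for every de Vries-Komornik number with
`q (q - 1)` at most the golden ratio, i.e. `q ≤ 1.8667...`.
-/

set_option autoImplicit false

namespace Pool.Agent.Results.MP_2c7009_nt.AccumulationPoints

/-- `c` is a `q`-expansion of `x` with digits `0` (`false`) and `1` (`true`); the digit `d_(i+1)` of
the problem is `c i` -/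
def IsExp (q x : ℝ) (c : ℕ → Bool) : Prop :=
  x = ∑' i : ℕ, (if c i then (1 : ℝ) else 0) / q ^ (i + 1)

/-- the univoque bases of `x`, in `(1, q_x]` with `q_x = min(2, 1 + 1/x)` -/
def U (x : ℝ) : Set ℝ := {q | 1 < q ∧ q ≤ min 2 (1 + 1 / x) ∧ ∃! c : ℕ → Bool, IsExp q x c}

/-- the smallest univoque base -/
noncomputable def qs (x : ℝ) : ℝ := sInf (U x)

/-- the level set at height `q` -/
def L (q : ℝ) : Set ℝ := {x | 0 < x ∧ qs x = q}

/-- the de Vries-Komornik numbers -/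
def IsDVK (q : ℝ) : Prop :=
  ∃ q0, q0 < q ∧ q0 ∈ closure (U 1) \ U 1 ∧ q ∈ U 1 ∧ ∀ t, q0 < t → t < q → t ∉ closure (U 1)

/-- `y` is an accumulation point of `A`: every neighbourhood contains infinitely many points -/
def IsAcc (A : Set ℝ) (y : ℝ) : Prop :=
  ∀ ε : ℝ, 0 < ε → (A ∩ Set.Ioo (y - ε) (y + ε)).Infinite

lemma isExp_iff {q x : ℝ} {c : ℕ → Bool} : IsExp q x c ↔ Q264.Uni.ev q c = x := by
  unfold IsExp Q264.Uni.ev Q264.Uni.bt
  have : ∀ i : ℕ, (if c i then (1 : ℝ) else 0) / q ^ (i + 1) =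
      (if c i then (1 : ℝ) else 0) * (q⁻¹) ^ (i + 1) := by
    intro i; rw [inv_pow, div_eq_mul_inv]
  simp only [this]
  exact eq_comm

lemma U_eq {x : ℝ} (hx : 0 < x) : U x = Q264.Uni.UU x := by
  ext q
  rw [Q264.Uni.UU_iff]
  unfold U
  simp only [Set.mem_ofPred_eq, isExp_iff, le_min_iff]
  constructor
  · rintro ⟨h1, ⟨h2, _⟩, h3⟩
    exact ⟨h1, h2, h3⟩
  · rintro ⟨h1, h2, h3⟩
    refine ⟨h1, ⟨h2, ?_⟩, h3⟩
    obtain ⟨c, hc, _⟩ := h3
    have h4 := Q264.Uni.ev_le h1 c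
    have hc' : Q264.Uni.ev q c = x := hc
    rw [hc', le_div_iff₀ (by linarith)] at h4
    have h5 : q - 1 ≤ 1 / x := by
      rw [le_div_iff₀ hx]; linarith
    linarith

lemma Lv_sub (q : ℝ) : Q264.Uni.Lv q ⊆ L q := by
  rintro x ⟨h1, h2⟩
  refine ⟨h1, ?_⟩
  unfold qs
  rw [U_eq h1]
  exact h2.csInf_eq

lemma main {q : ℝ} (h : IsDVK q) (hy : (q * (q - 1)) ^ 2 ≤ q * (q - 1) + 1) :
    ¬ (L q).Countable ∧ ¬ {y : ℝ | IsAcc (L q) y}.Countable := by
  obtain ⟨q0, h1, h2, h3, h4⟩ := h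
  rw [U_eq one_pos] at h2 h3 h4
  have hq1 : 1 < q := h3.1
  have hq2 : q < 2 := by
    rcases h3.2.1.lt_or_eq with h5 | h5
    · exact h5
    · rw [h5] at hy; norm_num at hy
  have hcl : closure (Q264.Uni.UU 1) ⊆ Set.Ici 1 :=
    closure_minimal (fun t ht => ht.1.le) isClosed_Ici
  obtain ⟨a, m, D⟩ := Q264.Uni.dat_of_iso (hcl h2.1) h1 hq2 h3
    (fun t ht1 ht2 htU => h4 t ht1 ht2 (subset_closure htU))
  have hp := Q264.Uni.pre1 D hy
  obtain ⟨S, hS, hunc, hleft, _⟩ := Q264.Uni.cantor_summary D hp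
  refine ⟨fun h5 => hunc (h5.mono (hS.trans (Lv_sub q))), fun h5 => hunc (h5.mono ?_)⟩
  intro x hx ε hε
  refine Q264.Uni.infinite_of_left (fun δ hδ => ?_) hε
  obtain ⟨y, e1, e2⟩ := hleft x hx δ hδ
  exact ⟨y, Lv_sub q e1, e2⟩

theorem result :
    (∀ Q3 : ℝ, 0 < Q3 → Q3⁻¹ + Q3⁻¹ ^ 2 + Q3⁻¹ ^ 3 = 1 → ∀ q : ℝ, IsDVK q → q < Q3 →
      {y : ℝ | IsAcc (L q) y}.Infinite) ∧
    ∀ q : ℝ, IsDVK q → q * (q - 1) ≤ (1 + Real.sqrt 5) / 2 →
      ¬ (L q).Countable ∧ ¬ {y : ℝ | IsAcc (L q) y}.Countable := by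
  have hgold : ∀ y : ℝ, 0 < y → y ≤ (1 + Real.sqrt 5) / 2 → y ^ 2 ≤ y + 1 := by
    intro y hy0 hy
    have h5 : Real.sqrt 5 ^ 2 = 5 := Real.sq_sqrt (by norm_num)
    have h6 : 1 < Real.sqrt 5 := by
      rw [Real.lt_sqrt (by norm_num)]; norm_num
    have h7 := mul_nonneg (sub_nonneg.2 hy) (show 0 ≤ y + (Real.sqrt 5 - 1) / 2 by linarith)
    nlinarith
  have hpos : ∀ q : ℝ, IsDVK q → 0 < q * (q - 1) := by
    rintro q ⟨_, _, _, h, _⟩
    have := h.1
    exact mul_pos (by linarith) (by linarith)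
  refine ⟨fun Q3 h0 h1 q hq hlt => ?_, fun q hq h => main hq (hgold _ (hpos q hq) h)⟩
  have hQ3 : Q3 < 1.85 := by
    by_contra hcon
    push Not at hcon
    have h2 : Q3⁻¹ ≤ (1.85 : ℝ)⁻¹ := inv_anti₀ (by norm_num) hcon
    have h3 : 0 < Q3⁻¹ := inv_pos.2 h0
    have h4 : Q3⁻¹ ^ 2 ≤ (1.85 : ℝ)⁻¹ ^ 2 := pow_le_pow_left₀ h3.le h2 2
    have h5 : Q3⁻¹ ^ 3 ≤ (1.85 : ℝ)⁻¹ ^ 3 := pow_le_pow_left₀ h3.le h2 3
    norm_num at h2 h4 h5
    rw [inv_pow, inv_pow] at h1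
    linarith
  have hy0 := hpos q hq
  have hq1 : 1 < q := by
    obtain ⟨_, _, _, h, _⟩ := hq
    exact h.1
  have hy1 : q * (q - 1) < 1.6 := by
    norm_num at hQ3 ⊢
    nlinarith
  have hy : (q * (q - 1)) ^ 2 ≤ q * (q - 1) + 1 := by
    generalize q * (q - 1) = y at hy0 hy1
    norm_num at hy1
    nlinarith
  intro hfin
  exact (main hq hy).2 hfin.countable

end Pool.Agent.Results.MP_2c7009_nt.AccumulationPoints
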